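import Mathlib

/-!
# Words of letters `x ↦ c x ^ l + e`: a uniform bound for the number of fixed points
-/

namespace Pool.H89.PW

open Set Real

/-- The orbit of `x` under the letters `x ↦ c i * x ^ l i + e i`, `i = 0, 1, 2, ...`. -/
noncomputable def orb (l c e : ℕ → ℝ) (x : ℝ) : ℕ → ℝ
  | 0 => x
  | i + 1 => c i * (orb l c e x i) ^ (l i) + e i

/-- The points `x` for which the letters `0, ..., n - 1` are applied to positive numbers. -/
def dom (l c e : ℕ → ℝ) (n : ℕ) : Set ℝ := {x | ∀ i < n, 0 < orb l c e x i}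

/-- The fixed points of the word of the letters `0, ..., n - 1`. -/
def fixedPts (l c e : ℕ → ℝ) (n : ℕ) : Set ℝ := {x | x ∈ dom l c e n ∧ orb l c e x n = x}

/-- The derivative of `orb`. -/
noncomputable def dorb (l c e : ℕ → ℝ) (x : ℝ) : ℕ → ℝ
  | 0 => 1
  | i + 1 => c i * l i * (orb l c e x i) ^ (l i - 1) * dorb l c e x i

variable {l c e : ℕ → ℝ} {n : ℕ}

lemma orb_lt (hl : ∀ i < n, 0 < l i) (hc : ∀ i < n, 0 < c i) {x x' : ℝ}
    (hx : x ∈ dom l c e n) (h : x < x') :
    ∀ i ≤ n, orb l c e x i < orb l c e x' i := by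
  intro i
  induction i with
  | zero => intro _; exact h
  | succ i ih =>
    intro hi
    have h1 := ih (by omega)
    have h2 := hx i (by omega)
    have h3 : orb l c e x i ^ l i < orb l c e x' i ^ l i :=
      Real.rpow_lt_rpow h2.le h1 (hl i (by omega))
    have h4 := mul_lt_mul_of_pos_left h3 (hc i (by omega))
    simp only [orb]
    linarith

lemma dom_up (hl : ∀ i < n, 0 < l i) (hc : ∀ i < n, 0 < c i) {x x' : ℝ}
    (hx : x ∈ dom l c e n) (h : x ≤ x') : x' ∈ dom l c e n := by
  rcases h.eq_or_lt with rfl | h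
  · exact hx
  · intro i hi
    exact (hx i hi).trans (orb_lt hl hc hx h i hi.le)

lemma dorb_pos (hl : ∀ i < n, 0 < l i) (hc : ∀ i < n, 0 < c i) {x : ℝ}
    (hx : x ∈ dom l c e n) : ∀ i ≤ n, 0 < dorb l c e x i := by
  intro i
  induction i with
  | zero => intro _; simp [dorb]
  | succ i ih =>
    intro hi
    have h1 := ih (by omega)
    have h2 := hx i (by omega)
    have h3 := hl i (by omega)
    have h4 := hc i (by omega)
    simp only [dorb]
    have := Real.rpow_pos_of_pos h2 (l i - 1)
    positivity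

lemma hasDeriv {x : ℝ} (hx : x ∈ dom l c e n) :
    ∀ i ≤ n, HasDerivAt (fun t => orb l c e t i) (dorb l c e x i) x := by
  intro i
  induction i with
  | zero => intro _; exact hasDerivAt_id' x
  | succ i ih =>
    intro hi
    have h1 := ih (by omega)
    have h2 := hx i (by omega)
    have h3 := (h1.rpow_const (p := l i) (Or.inl h2.ne')).const_mul (c i)
    have h4 := h3.add_const (e i)
    exact h4.congr_deriv (by simp only [dorb]; ring)

/-- `y_i' / y_i` -/
noncomputable def el (l c e : ℕ → ℝ) (x : ℝ) (i : ℕ) : ℝ := dorb l c e x i / orb l c e x i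

/-- logarithm of the derivative of the word -/
noncomputable def G (l c e : ℕ → ℝ) (x : ℝ) (k : ℕ) : ℝ :=
  ∑ i ∈ Finset.range k, (log (c i * l i) + (l i - 1) * log (orb l c e x i))

/-- derivative of `G` -/
noncomputable def s (l c e : ℕ → ℝ) (x : ℝ) (k : ℕ) : ℝ :=
  ∑ i ∈ Finset.range k, (l i - 1) * el l c e x i

lemma dorb_eq_exp (hl : ∀ i < n, 0 < l i) (hc : ∀ i < n, 0 < c i) {x : ℝ}
    (hx : x ∈ dom l c e n) : ∀ k ≤ n, dorb l c e x k = exp (G l c e x k) := by
  intro k
  induction k with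
  | zero => intro _; simp [dorb, G]
  | succ k ih =>
    intro hk
    have h1 := ih (by omega)
    have h2 := hx k (by omega)
    have h3 : 0 < c k * l k := mul_pos (hc k (by omega)) (hl k (by omega))
    have h4 : G l c e x (k + 1) = G l c e x k +
        (log (c k * l k) + (l k - 1) * log (orb l c e x k)) := by
      simp only [G, Finset.sum_range_succ]
    rw [h4, exp_add, exp_add, exp_log h3, ← h1]
    simp only [dorb]
    rw [Real.rpow_def_of_pos h2, mul_comm (log (orb l c e x k)) (l k - 1)]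
    ring

lemma hasDerivG {x : ℝ} (hx : x ∈ dom l c e n) :
    ∀ k ≤ n, HasDerivAt (fun t => G l c e t k) (s l c e x k) x := by
  intro k hk
  simp only [G, s]
  apply HasDerivAt.fun_sum
  intro i hi
  have hi' : i < k := Finset.mem_range.1 hi
  have h2 := hx i (by omega)
  have h3 := ((hasDeriv hx i (by omega)).log h2.ne').const_mul (l i - 1)
  have h4 := h3.const_add (log (c i * l i))
  exact h4

/-- constant or strictly increasing on `S` -/
def CI (f : ℝ → ℝ) (S : Set ℝ) : Prop := (∀ x ∈ S, ∀ y ∈ S, f x = f y) ∨ StrictMonoOn f S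

lemma CI.add {f g : ℝ → ℝ} {S : Set ℝ} (hf : CI f S) (hg : CI g S) :
    CI (fun x => f x + g x) S := by
  rcases hf with hf | hf <;> rcases hg with hg | hg
  · left; intro x hx y hy; simp only [hf x hx y hy, hg x hx y hy]
  · right; intro x hx y hy hxy
    have := hg hx hy hxy
    simp only [hf x hx y hy]; linarith
  · right; intro x hx y hy hxy
    have := hf hx hy hxy
    simp only [hg x hx y hy]; linarith
  · right; intro x hx y hy hxy
    have := hf hx hy hxy
    have := hg hx hy hxy
    simp only; linarith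

lemma CI.congr {f g : ℝ → ℝ} {S : Set ℝ} (hf : CI f S) (h : ∀ x ∈ S, g x = f x) : CI g S := by
  rcases hf with hf | hf
  · left; intro x hx y hy; rw [h x hx, h y hy]; exact hf x hx y hy
  · right; intro x hx y hy hxy; rw [h x hx, h y hy]; exact hf hx hy hxy

lemma CI.const (a : ℝ) (S : Set ℝ) : CI (fun _ => a) S := Or.inl fun _ _ _ _ => rfl

lemma CI.sum {ι : Type*} (T : Finset ι) {f : ι → ℝ → ℝ} {S : Set ℝ}
    (h : ∀ i ∈ T, CI (f i) S) : CI (fun x => ∑ i ∈ T, f i x) S := by
  classical
  induction T using Finset.induction_on with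
  | empty => simpa using CI.const 0 S
  | insert a T ha ih =>
    have h1 := h a (Finset.mem_insert_self a T)
    have h2 := ih fun i hi => h i (Finset.mem_insert_of_mem hi)
    refine (h1.add h2).congr fun x _ => ?_
    rw [Finset.sum_insert ha]

lemma CI.term {L : ℝ → ℝ} {S : Set ℝ} {τ η b : ℝ} (hτ : τ = 1 ∨ τ = -1)
    (hL : CI (fun x => τ * L x) S) (hb : 0 ≤ η * b * τ) :
    CI (fun x => η * (b * exp (L x))) S := by
  rcases eq_or_ne (η * b) 0 with h0 | h0
  · refine (CI.const 0 S).congr fun x _ => ?_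
    rw [← mul_assoc, h0, zero_mul]
  rcases hL with hL | hL
  · left
    intro x hx y hy
    have h1 := hL x hx y hy
    have h2 : L x = L y := by rcases hτ with rfl | rfl <;> linarith
    simp only [h2]
  · right
    intro x hx y hy hxy
    have h1 := hL hx hy hxy
    simp only at h1 ⊢
    rw [← mul_assoc, ← mul_assoc]
    rcases hτ with rfl | rfl
    · have h2 : exp (L x) < exp (L y) := exp_lt_exp.2 (by linarith)
      have h3 : 0 < η * b := lt_of_le_of_ne (by linarith) h0.symm
      exact mul_lt_mul_of_pos_left h2 h3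
    · have h2 : exp (L y) < exp (L x) := exp_lt_exp.2 (by linarith)
      have h3 : η * b < 0 := lt_of_le_of_ne (by linarith) h0
      exact mul_lt_mul_of_neg_left h2 h3

/-- the increment of `log (y_i' / y_i)` -/
noncomputable def R (l c e : ℕ → ℝ) (x : ℝ) (i : ℕ) : ℝ :=
  log (el l c e x (i + 1)) - log (el l c e x i)

lemma R_eq (hl : ∀ i < n, 0 < l i) (hc : ∀ i < n, 0 < c i) {x : ℝ}
    (hx : x ∈ dom l c e n) {i : ℕ} (hi : i + 1 < n) :
    R l c e x i = log (l i) + (log (c i * orb l c e x i ^ l i) -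
      log (c i * orb l c e x i ^ l i + e i)) := by
  have h0 := hx i (by omega)
  have h1 : 0 < orb l c e x (i + 1) := hx (i + 1) hi
  have h2 := dorb_pos hl hc hx i (by omega)
  have h3 := dorb_pos hl hc hx (i + 1) (by omega)
  have h4 := hl i (by omega)
  have h5 := hc i (by omega)
  have h6 := Real.rpow_pos_of_pos h0 (l i - 1)
  have h7 := Real.rpow_pos_of_pos h0 (l i)
  unfold R el
  rw [Real.log_div h3.ne' h1.ne', Real.log_div h2.ne' h0.ne']
  have h8 : log (dorb l c e x (i + 1)) =
      log (c i) + log (l i) + (l i - 1) * log (orb l c e x i) + log (dorb l c e x i) := by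
    simp only [dorb]
    rw [Real.log_mul (by positivity) h2.ne', Real.log_mul (by positivity) h6.ne',
      Real.log_mul h5.ne' h4.ne', Real.log_rpow h0]
  have h9 : log (c i * orb l c e x i ^ l i) = log (c i) + l i * log (orb l c e x i) := by
    rw [Real.log_mul h5.ne' h7.ne', Real.log_rpow h0]
  rw [h8, h9]
  simp only [orb]
  ring

lemma R_CI (hl : ∀ i < n, 0 < l i) (hc : ∀ i < n, 0 < c i) {σ : ℝ} (hσ : σ = 1 ∨ σ = -1)
    {i : ℕ} (hi : i + 1 < n) (he : 0 ≤ σ * e i) :
    CI (fun x => σ * R l c e x i) (dom l c e n) := by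
  have key : CI (fun x => σ * (log (c i * orb l c e x i ^ l i) -
      log (c i * orb l c e x i ^ l i + e i))) (dom l c e n) := by
    rcases eq_or_ne (e i) 0 with h0 | h0
    · left
      intro x _ y _
      simp only [h0, add_zero, sub_self]
    · right
      intro x hx y hy hxy
      have hx0 := hx i (by omega)
      have hy0 := hy i (by omega)
      have hx1 : 0 < c i * orb l c e x i ^ l i + e i := hx (i + 1) hi
      have hy1 : 0 < c i * orb l c e y i ^ l i + e i := hy (i + 1) hi
      have hc0 := hc i (by omega)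
      have hzx : 0 < c i * orb l c e x i ^ l i := mul_pos hc0 (Real.rpow_pos_of_pos hx0 _)
      have hzy : 0 < c i * orb l c e y i ^ l i := mul_pos hc0 (Real.rpow_pos_of_pos hy0 _)
      have hlt : c i * orb l c e x i ^ l i < c i * orb l c e y i ^ l i :=
        mul_lt_mul_of_pos_left (Real.rpow_lt_rpow hx0.le (orb_lt hl hc hx hxy i (by omega))
          (hl i (by omega))) hc0
      set u := c i * orb l c e x i ^ l i with hu
      set v := c i * orb l c e y i ^ l i with hv
      simp only
      rw [← Real.log_div hzx.ne' hx1.ne', ← Real.log_div hzy.ne' hy1.ne']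
      rcases hσ with rfl | rfl
      · have he' : 0 < e i := lt_of_le_of_ne (by linarith) h0.symm
        have : u / (u + e i) < v / (v + e i) := by
          rw [div_lt_div_iff₀ hx1 hy1]
          nlinarith
        have := Real.log_lt_log (by positivity) this
        linarith
      · have he' : e i < 0 := lt_of_le_of_ne (by linarith) h0
        have : v / (v + e i) < u / (u + e i) := by
          rw [div_lt_div_iff₀ hy1 hx1]
          nlinarith
        have := Real.log_lt_log (by positivity) this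
        linarith
  refine ((CI.const (σ * log (l i)) _).add key).congr fun x hx => ?_
  rw [R_eq hl hc hx hi]
  ring

/-- `log (y_j'/y_j)` increments from `a` to `a + k` -/
lemma L_CI (hl : ∀ i < n, 0 < l i) (hc : ∀ i < n, 0 < c i) {σ : ℝ} (hσ : σ = 1 ∨ σ = -1)
    {a : ℕ} (k : ℕ) (hk : a + k < n) (he : ∀ i, a ≤ i → i < a + k → 0 ≤ σ * e i) :
    CI (fun x => σ * (log (el l c e x (a + k)) - log (el l c e x a))) (dom l c e n) := by
  induction k with
  | zero =>
    refine (CI.const 0 _).congr fun x _ => ?_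
    simp
  | succ k ih =>
    have h1 := ih (by omega) fun i hi hi' => he i hi (by omega)
    have h2 := R_CI (i := a + k) hl hc hσ (by omega) (he (a + k) (by omega) (by omega))
    refine (h1.add h2).congr fun x _ => ?_
    unfold R
    rw [← add_assoc]
    ring

theorem Q_CI (hl : ∀ i < n, 0 < l i) (hc : ∀ i < n, 0 < c i) {m : ℕ} (hm : m < n)
    {σ₁ σ₂ η : ℝ} (hσ₁ : σ₁ = 1 ∨ σ₁ = -1) (hσ₂ : σ₂ = 1 ∨ σ₂ = -1)
    (h1 : ∀ i < m, 0 ≤ σ₁ * e i ∧ η * σ₁ * (l i - 1) ≤ 0)
    (h2 : ∀ i, m ≤ i → i + 1 < n → 0 ≤ σ₂ * e i)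
    (h3 : ∀ i, m < i → i < n → 0 ≤ η * σ₂ * (l i - 1)) :
    CI (fun x => η * (s l c e x n / el l c e x m)) (dom l c e n) := by
  have key : CI (fun x => ∑ j ∈ Finset.range n,
      η * ((l j - 1) * exp (log (el l c e x j) - log (el l c e x m)))) (dom l c e n) := by
    apply CI.sum
    intro j hj
    have hj' : j < n := Finset.mem_range.1 hj
    rcases lt_trichotomy j m with hjm | hjm | hjm
    · obtain ⟨k, rfl⟩ := Nat.exists_eq_add_of_lt hjm
      have h4 := L_CI (a := j) hl hc hσ₁ (k + 1) (by omega)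
        (fun i hi hi' => (h1 i (by omega)).1)
      have h5 : CI (fun x => -σ₁ * (log (el l c e x j) - log (el l c e x (j + k + 1))))
          (dom l c e n) := by
        refine h4.congr fun x _ => ?_
        rw [← add_assoc]
        ring
      refine CI.term (τ := -σ₁) ?_ h5 ?_
      · rcases hσ₁ with rfl | rfl
        · right; rfl
        · left; norm_num
      · have := (h1 j hjm).2
        nlinarith
    · subst hjm
      refine (CI.const (η * (l j - 1)) _).congr fun x _ => ?_
      simp
    · obtain ⟨k, rfl⟩ := Nat.exists_eq_add_of_lt hjm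
      have h4 := L_CI (a := m) hl hc hσ₂ (k + 1) (by omega)
        (fun i hi hi' => h2 i hi (by omega))
      refine CI.term (τ := σ₂) hσ₂ (by simpa [← add_assoc] using h4) ?_
      have := h3 (m + k + 1) hjm hj'
      nlinarith
  refine key.congr fun x hx => ?_
  have hel : ∀ j < n, 0 < el l c e x j := fun j hj =>
    div_pos (dorb_pos hl hc hx j hj.le) (hx j hj)
  unfold s
  rw [Finset.sum_div, Finset.mul_sum]
  apply Finset.sum_congr rfl
  intro j hj
  have hj' : j < n := Finset.mem_range.1 hj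
  rw [exp_sub, exp_log (hel j hj'), exp_log (hel m hm)]
  ring

/-- if `Q` is constant or strictly monotone, four fixed points force the identity -/
theorem four (hl : ∀ i < n, 0 < l i) (hc : ∀ i < n, 0 < c i) {m : ℕ} (hm : m < n) {η : ℝ}
    (hη : η = 1 ∨ η = -1)
    (hQ : CI (fun x => η * (s l c e x n / el l c e x m)) (dom l c e n))
    {a₁ a₂ a₃ a₄ : ℝ} (h₁ : a₁ ∈ fixedPts l c e n) (h₂ : a₂ ∈ fixedPts l c e n)
    (h₃ : a₃ ∈ fixedPts l c e n) (h₄ : a₄ ∈ fixedPts l c e n)
    (h12 : a₁ < a₂) (h23 : a₂ < a₃) (h34 : a₃ < a₄) :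
    ∀ x ∈ dom l c e n, orb l c e x n = x := by
  have up : ∀ {x x' : ℝ}, x ∈ dom l c e n → x ≤ x' → x' ∈ dom l c e n :=
    fun hx h => dom_up hl hc hx h
  have hne : η ≠ 0 := by rcases hη with rfl | rfl <;> norm_num
  -- first Rolle step
  have rolle1 : ∀ {a b : ℝ}, a ∈ fixedPts l c e n → b ∈ fixedPts l c e n → a < b →
      ∃ t ∈ Ioo a b, G l c e t n = 0 := by
    intro a b ha hb hab
    have hd : ∀ t ∈ Icc a b, HasDerivAt (fun u => orb l c e u n - u) (dorb l c e t n - 1) t :=
      fun t ht => (hasDeriv (up ha.1 ht.1) n le_rfl).sub (hasDerivAt_id t)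
    obtain ⟨t, ht, ht'⟩ := exists_hasDerivAt_eq_zero (f := fun u => orb l c e u n - u)
      (f' := fun t => dorb l c e t n - 1) hab
      (fun t ht => (hd t ht).continuousAt.continuousWithinAt)
      (by simp only [ha.2, hb.2, sub_self])
      (fun t ht => hd t (Ioo_subset_Icc_self ht))
    refine ⟨t, ht, ?_⟩
    have h5 := dorb_eq_exp hl hc (up ha.1 ht.1.le) n le_rfl
    have h6 : exp (G l c e t n) = 1 := by rw [← h5]; linarith
    exact Real.exp_eq_one_iff _ |>.1 h6
  obtain ⟨c₁, hc₁, g₁⟩ := rolle1 h₁ h₂ h12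
  obtain ⟨c₂, hc₂, g₂⟩ := rolle1 h₂ h₃ h23
  obtain ⟨c₃, hc₃, g₃⟩ := rolle1 h₃ h₄ h34
  have hc₁d : c₁ ∈ dom l c e n := up h₁.1 hc₁.1.le
  have hc₂d : c₂ ∈ dom l c e n := up h₂.1 hc₂.1.le
  -- second Rolle step
  have rolle2 : ∀ {a b : ℝ}, a ∈ dom l c e n → G l c e a n = 0 → G l c e b n = 0 → a < b →
      ∃ t ∈ Ioo a b, s l c e t n = 0 := by
    intro a b ha ga gb hab
    have hd : ∀ t ∈ Icc a b, HasDerivAt (fun u => G l c e u n) (s l c e t n) t :=
      fun t ht => hasDerivG (up ha ht.1) n le_rfl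
    obtain ⟨t, ht, ht'⟩ := exists_hasDerivAt_eq_zero (f := fun u => G l c e u n)
      (f' := fun t => s l c e t n) hab
      (fun t ht => (hd t ht).continuousAt.continuousWithinAt)
      (by simp only [ga, gb])
      (fun t ht => hd t (Ioo_subset_Icc_self ht))
    exact ⟨t, ht, ht'⟩
  obtain ⟨d₁, hd₁, s₁⟩ := rolle2 hc₁d g₁ g₂ (hc₁.2.trans hc₂.1)
  obtain ⟨d₂, hd₂, s₂⟩ := rolle2 hc₂d g₂ g₃ (hc₂.2.trans hc₃.1)
  have hd₁d : d₁ ∈ dom l c e n := up hc₁d hd₁.1.le
  have hd₂d : d₂ ∈ dom l c e n := up hc₂d hd₂.1.le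
  have hdd : d₁ < d₂ := hd₁.2.trans hd₂.1
  have hs : ∀ x ∈ dom l c e n, s l c e x n = 0 := by
    rcases hQ with hQ | hQ
    · intro x hx
      have h5 := hQ x hx d₁ hd₁d
      simp only [s₁, zero_div, mul_zero] at h5
      have hel : 0 < el l c e x m := div_pos (dorb_pos hl hc hx m hm.le) (hx m hm)
      rcases mul_eq_zero.1 h5 with h6 | h6
      · exact absurd h6 hne
      · rcases div_eq_zero_iff.1 h6 with h7 | h7
        · exact h7
        · exact absurd h7 hel.ne'
    · have h5 := hQ hd₁d hd₂d hdd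
      simp only [s₁, s₂, zero_div, mul_zero, lt_self_iff_false] at h5
  -- constancy
  have hconst : ∀ {f : ℝ → ℝ} {a b : ℝ}, a ∈ dom l c e n → a ≤ b →
      (∀ t ∈ dom l c e n, HasDerivAt f 0 t) → f a = f b := by
    intro f a b ha hab hf
    rcases hab.eq_or_lt with rfl | hab
    · rfl
    obtain ⟨t, _, ht⟩ := exists_hasDerivAt_eq_slope f (fun _ => 0) hab
      (fun t ht => (hf t (up ha ht.1)).continuousAt.continuousWithinAt)
      (fun t ht => hf t (up ha ht.1.le))
    have h5 : f b - f a = 0 := by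
      have h6 : b - a ≠ 0 := by linarith
      field_simp at ht
      linarith
    linarith
  have hG : ∀ x ∈ dom l c e n, G l c e x n = 0 := by
    intro x hx
    have hf : ∀ t ∈ dom l c e n, HasDerivAt (fun u => G l c e u n) 0 t := by
      intro t ht
      have := hasDerivG ht n le_rfl
      rwa [hs t ht] at this
    rcases le_total x c₁ with h5 | h5
    · have := hconst hx h5 hf
      rw [this, g₁]
    · have := hconst hc₁d h5 hf
      rw [← this, g₁]
  intro x hx
  have hf : ∀ t ∈ dom l c e n, HasDerivAt (fun u => orb l c e u n - u) 0 t := by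
    intro t ht
    have h5 := (hasDeriv ht n le_rfl).sub (hasDerivAt_id t)
    have h6 := dorb_eq_exp hl hc ht n le_rfl
    rw [hG t ht, exp_zero] at h6
    rw [h6, sub_self] at h5
    exact h5
  rcases le_total x a₁ with h5 | h5
  · have := hconst hx h5 hf
    simp only [h₁.2, sub_self] at this
    linarith
  · have := hconst h₁.1 h5 hf
    simp only [h₁.2, sub_self] at this
    linarith

lemma encard_le_three {F : Set ℝ}
    (h : ∀ a ∈ F, ∀ b ∈ F, ∀ c ∈ F, ∀ d ∈ F, a < b → b < c → c < d → False) :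
    F.encard ≤ 3 := by
  by_contra hcon
  push Not at hcon
  have h4 : (4 : ℕ∞) ≤ F.encard := by
    have h5 : (4 : ℕ∞) = 3 + 1 := by norm_num
    rw [h5]
    exact Order.add_one_le_of_lt hcon
  obtain ⟨T, hT, hT4⟩ := Set.exists_subset_encard_eq h4
  have hfin : T.Finite := Set.finite_of_encard_eq_coe (k := 4) (by simpa using hT4)
  have hcard : hfin.toFinset.card = 4 := by
    have h5 := hfin.encard_eq_coe_toFinset_card
    rw [hT4] at h5
    exact_mod_cast h5.symm
  set f := hfin.toFinset.orderEmbOfFin hcard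
  have hf : ∀ i, f i ∈ F := fun i =>
    hT (hfin.mem_toFinset.1 (Finset.orderEmbOfFin_mem _ hcard i))
  exact h (f 0) (hf 0) (f 1) (hf 1) (f 2) (hf 2) (f 3) (hf 3)
    (f.strictMono (by decide)) (f.strictMono (by decide)) (f.strictMono (by decide))

end Pool.H89.PW
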