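import Mathlib
import Pool.Agent.H89.PW.Main

/-!
# Behaviour of a word near infinity
-/

namespace Pool.H89.PW

open Set Real Filter Topology

lemma asymp (l c e : ℕ → ℝ) (n : ℕ) (hl : ∀ i < n, 0 < l i) (hc : ∀ i < n, 0 < c i) :
    ∃ K : ℝ, 0 < K ∧ Tendsto (fun x => orb l c e x n / x ^ (∏ i ∈ Finset.range n, l i))
      atTop (𝓝 K) := by
  induction n with
  | zero =>
    refine ⟨1, one_pos, ?_⟩
    refine (tendsto_const_nhds (x := (1 : ℝ))).congr' ?_
    filter_upwards [eventually_gt_atTop 0] with x hx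
    simp only [orb, Finset.range_zero, Finset.prod_empty, rpow_one]
    rw [div_self hx.ne']
  | succ n ih =>
    obtain ⟨K, hK, hT⟩ := ih (fun i hi => hl i (by omega)) (fun i hi => hc i (by omega))
    set L : ℝ := ∏ i ∈ Finset.range n, l i with hL
    have hL0 : 0 < L := Finset.prod_pos fun i hi => hl i (by
      have := Finset.mem_range.1 hi; omega)
    have hln : 0 < l n := hl n (by omega)
    have hcn : 0 < c n := hc n (by omega)
    refine ⟨c n * K ^ l n, by positivity, ?_⟩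
    have h1 : Tendsto (fun x => c n * (orb l c e x n / x ^ L) ^ l n) atTop
        (𝓝 (c n * K ^ l n)) :=
      (hT.rpow_const (Or.inl hK.ne')).const_mul (c n)
    have h2 : Tendsto (fun x : ℝ => e n * x ^ (-(L * l n))) atTop (𝓝 (e n * 0)) :=
      (tendsto_rpow_neg_atTop (mul_pos hL0 hln)).const_mul (e n)
    have h3 := h1.add h2
    rw [mul_zero, add_zero] at h3
    refine h3.congr' ?_
    have h4 : ∀ᶠ x in atTop, 0 < orb l c e x n / x ^ L := hT.eventually (lt_mem_nhds hK)
    filter_upwards [h4, eventually_gt_atTop 0] with x hx hx0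
    have h5 : 0 < x ^ L := Real.rpow_pos_of_pos hx0 L
    have h6 : 0 < orb l c e x n := by
      have := mul_pos hx h5
      rwa [div_mul_cancel₀ _ h5.ne'] at this
    rw [Finset.prod_range_succ, ← hL, Real.div_rpow h6.le h5.le, ← Real.rpow_mul hx0.le,
      Real.rpow_neg hx0.le]
    simp only [orb]
    ring

lemma ev_pos (l c e : ℕ → ℝ) (n : ℕ) (hl : ∀ i < n, 0 < l i) (hc : ∀ i < n, 0 < c i) :
    ∀ᶠ x in atTop, 0 < orb l c e x n := by
  obtain ⟨K, hK, hT⟩ := asymp l c e n hl hc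
  filter_upwards [hT.eventually (lt_mem_nhds hK), eventually_gt_atTop 0] with x hx hx0
  have h5 := Real.rpow_pos_of_pos hx0 (∏ i ∈ Finset.range n, l i)
  have := mul_pos hx h5
  rwa [div_mul_cancel₀ _ h5.ne'] at this

theorem ev_dom (l c e : ℕ → ℝ) (n : ℕ) (hl : ∀ i < n, 0 < l i) (hc : ∀ i < n, 0 < c i) :
    ∀ᶠ x in atTop, x ∈ dom l c e n := by
  have h : ∀ᶠ x in atTop, ∀ i ∈ Finset.range n, 0 < orb l c e x i := by
    rw [Filter.eventually_all_finset]
    intro i hi
    have hi' := Finset.mem_range.1 hi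
    exact ev_pos l c e i (fun j hj => hl j (by omega)) (fun j hj => hc j (by omega))
  filter_upwards [h] with x hx i hi
  exact hx i (Finset.mem_range.2 hi)

theorem ev_lt (l c e : ℕ → ℝ) (n : ℕ) (hl : ∀ i < n, 0 < l i) (hc : ∀ i < n, 0 < c i)
    (hL : ∏ i ∈ Finset.range n, l i < 1) : ∀ᶠ x in atTop, orb l c e x n < x := by
  obtain ⟨K, hK, hT⟩ := asymp l c e n hl hc
  set L : ℝ := ∏ i ∈ Finset.range n, l i with hL'
  have h1 : Tendsto (fun x : ℝ => x ^ (-(1 - L))) atTop (𝓝 0) :=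
    tendsto_rpow_neg_atTop (by linarith)
  have h2 := hT.mul h1
  rw [mul_zero] at h2
  filter_upwards [h2.eventually (gt_mem_nhds one_pos), eventually_gt_atTop 0] with x hx hx0
  have h5 := Real.rpow_pos_of_pos hx0 L
  have h6 : x ^ (-(1 - L)) = x ^ L / x := by
    rw [show -(1 - L) = L - 1 by ring, Real.rpow_sub hx0, Real.rpow_one]
  rw [h6, div_mul_div_comm, mul_comm (x ^ L) x, mul_div_mul_right _ _ h5.ne',
    div_lt_one hx0] at hx
  exact hx

theorem ev_gt (l c e : ℕ → ℝ) (n : ℕ) (hl : ∀ i < n, 0 < l i) (hc : ∀ i < n, 0 < c i)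
    (hL : 1 < ∏ i ∈ Finset.range n, l i) : ∀ᶠ x in atTop, x < orb l c e x n := by
  obtain ⟨K, hK, hT⟩ := asymp l c e n hl hc
  set L : ℝ := ∏ i ∈ Finset.range n, l i with hL'
  have h1 : Tendsto (fun x : ℝ => x ^ (L - 1)) atTop atTop :=
    tendsto_rpow_atTop (by linarith)
  have h2 := hT.pos_mul_atTop hK h1
  filter_upwards [h2.eventually_gt_atTop 1, eventually_gt_atTop 0] with x hx hx0
  have h5 := Real.rpow_pos_of_pos hx0 L
  have h6 : x ^ (L - 1) = x ^ L / x := by
    rw [Real.rpow_sub hx0, Real.rpow_one]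
  rw [h6, div_mul_div_comm, mul_comm (x ^ L) x, mul_div_mul_right _ _ h5.ne',
    one_lt_div hx0] at hx
  exact hx

end Pool.H89.PW
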