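import Mathlib
import Pool.Agent.H32.PW.ThreeAux

/-!
# Zeros of generalised polynomials with a power of `z - e`
-/

namespace Pool.H89.PW

open Set Real Pool.H32.PC

section
variable {I : Set ℝ} (hI : ∀ x ∈ I, ∀ z, x ≤ z → z ∈ I)
include hI

lemma step0 {f g g' m : ℝ → ℝ} (hfg : ∀ x ∈ I, f x = m x * g x) (hm : ∀ x ∈ I, m x ≠ 0)
    (hg : ∀ x ∈ I, HasDerivAt g (g' x) x) (h : ∀ x ∈ I, g' x = 0) :
    Z I f 0 ∨ ∀ x ∈ I, f x = 0 := by
  have hc := const_of_zero hI hg h
  by_cases hx : ∃ x ∈ I, f x = 0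
  · obtain ⟨x, hx, hfx⟩ := hx
    right
    intro y hy
    have h1 : g x = 0 := by
      have := hfg x hx
      rw [hfx] at this
      rcases mul_eq_zero.1 this.symm with h2 | h2
      · exact absurd h2 (hm x hx)
      · exact h2
    rw [hfg y hy, ← hc x hx y hy, h1, mul_zero]
  · left
    intro s hs
    push Not at hx
    rcases s.eq_empty_or_nonempty with rfl | ⟨y, hy⟩
    · simp
    · exact absurd (hs y hy).2 (hx y (hs y hy).1)

lemma step1 {f g g' m : ℝ → ℝ} (hfg : ∀ x ∈ I, f x = m x * g x) (hm : ∀ x ∈ I, m x ≠ 0)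
    (hg : ∀ x ∈ I, HasDerivAt g (g' x) x) {n : ℕ} (h : Z I g' n ∨ ∀ x ∈ I, g' x = 0) :
    Z I f (n + 1) ∨ ∀ x ∈ I, f x = 0 := by
  rcases h with h | h
  · left
    have h1 := rolle hI hg h
    intro s hs
    refine h1 s fun x hx => ⟨(hs x hx).1, ?_⟩
    have h2 := hfg x (hs x hx).1
    rw [(hs x hx).2] at h2
    rcases mul_eq_zero.1 h2.symm with h3 | h3
    · exact absurd h3 (hm x (hs x hx).1)
    · exact h3
  · rcases step0 hI hfg hm hg h with h1 | h1
    · exact Or.inl (h1.mono (Nat.zero_le _))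
    · exact Or.inr h1

/-- Descartes' bound for generalised polynomials with real exponents. -/
theorem desc {ι : Type*} [DecidableEq ι] (hpos : ∀ x ∈ I, 0 < x) (s : Finset ι) :
    ∀ (A α : ι → ℝ), Z I (fun v => ∑ i ∈ s, A i * v ^ (α i)) (s.card - 1) ∨
      ∀ v ∈ I, ∑ i ∈ s, A i * v ^ (α i) = 0 := by
  induction s using Finset.induction_on with
  | empty => intro A α; right; intro v _; simp
  | insert j s hj ih =>
    intro A α
    have hg : ∀ v ∈ I, HasDerivAt (fun v => ∑ i ∈ insert j s, A i * v ^ (α i - α j))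
        (∑ i ∈ s, (A i * (α i - α j)) * v ^ (α i - α j - 1)) v := by
      intro v hv
      have hv0 := hpos v hv
      have h1 : HasDerivAt (fun v => ∑ i ∈ insert j s, A i * v ^ (α i - α j))
          (∑ i ∈ insert j s, A i * ((α i - α j) * v ^ (α i - α j - 1))) v := by
        apply HasDerivAt.fun_sum
        intro i _
        exact (Real.hasDerivAt_rpow_const (Or.inl hv0.ne')).const_mul _
      refine h1.congr_deriv ?_
      rw [Finset.sum_insert hj]
      simp [mul_assoc]
    have hfg : ∀ v ∈ I, ∑ i ∈ insert j s, A i * v ^ (α i) =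
        v ^ (α j) * ∑ i ∈ insert j s, A i * v ^ (α i - α j) := by
      intro v hv
      rw [Finset.mul_sum]
      apply Finset.sum_congr rfl
      intro i _
      have h1 : v ^ (α i) = v ^ (α j) * v ^ (α i - α j) := by
        rw [← Real.rpow_add (hpos v hv)]; congr 1; ring
      rw [h1]; ring
    have hm : ∀ v ∈ I, v ^ (α j) ≠ 0 := fun v hv => (Real.rpow_pos_of_pos (hpos v hv) _).ne'
    have h1 := ih (fun i => A i * (α i - α j)) (fun i => α i - α j - 1)
    rcases s.eq_empty_or_nonempty with rfl | hs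
    · have h2 := step0 hI hfg hm hg (by intro x _; simp)
      simpa using h2
    · have h2 := step1 hI hfg hm hg h1
      have h3 : (insert j s).card - 1 = s.card - 1 + 1 := by
        rw [Finset.card_insert_of_notMem hj]
        have := hs.card_pos
        omega
      rw [h3]; exact h2
end

open Polynomial

/-- the polynomial of one step, general exponent -/
noncomputable def stA (ν e β : ℝ) (p : ℝ[X]) : ℝ[X] :=
  C ν * (X * p) + (X - C e) * (C β * p + X * derivative p)

/-- the polynomial of one step, exponent zero -/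
noncomputable def stB (ν e : ℝ) (p : ℝ[X]) : ℝ[X] :=
  C ν * p + (X - C e) * derivative p

lemma deg_stA (ν e β : ℝ) {p : ℝ[X]} {k : ℕ} (hp : p.natDegree ≤ k) :
    (stA ν e β p).natDegree ≤ k + 1 := by
  have hd : (derivative p).natDegree ≤ k - 1 :=
    (natDegree_derivative_le p).trans (by omega)
  have h1 : (C ν * (X * p)).natDegree ≤ k + 1 := by
    refine (natDegree_C_mul_le _ _).trans ?_
    refine natDegree_mul_le.trans ?_
    rw [natDegree_X]; omega
  have h2 : (X * derivative p).natDegree ≤ k ∨ p.natDegree = 0 := by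
    rcases Nat.eq_zero_or_pos p.natDegree with h | h
    · exact Or.inr h
    · left
      refine natDegree_mul_le.trans ?_
      rw [natDegree_X]; omega
  have h3 : (C β * p + X * derivative p).natDegree ≤ k := by
    refine natDegree_add_le_of_degree_le ((natDegree_C_mul_le _ _).trans hp) ?_
    rcases h2 with h2 | h2
    · exact h2
    · rw [derivative_of_natDegree_zero h2]; simp
  have h4 : ((X - C e) * (C β * p + X * derivative p)).natDegree ≤ k + 1 := by
    refine natDegree_mul_le.trans ?_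
    rw [natDegree_X_sub_C]; omega
  exact natDegree_add_le_of_degree_le h1 h4

lemma deg_stB (ν e : ℝ) {p : ℝ[X]} {k : ℕ} (hp : p.natDegree ≤ k) :
    (stB ν e p).natDegree ≤ k := by
  refine natDegree_add_le_of_degree_le ((natDegree_C_mul_le _ _).trans hp) ?_
  rcases Nat.eq_zero_or_pos p.natDegree with h | h
  · rw [derivative_of_natDegree_zero h]; simp
  · have hd := natDegree_derivative_le p
    refine natDegree_mul_le.trans ?_
    rw [natDegree_X_sub_C]; omega

lemma der_stA (ν e β : ℝ) (p : ℝ[X]) {z : ℝ} (hz : 0 < z) (hze : e < z) :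
    HasDerivAt (fun z => (z - e) ^ ν * (z ^ β * p.eval z))
      ((z - e) ^ (ν - 1) * (z ^ (β - 1) * (stA ν e β p).eval z)) z := by
  have h0 : 0 < z - e := by linarith
  have h1 : HasDerivAt (fun z : ℝ => (z - e) ^ ν) (ν * (z - e) ^ (ν - 1)) z := by
    have := ((hasDerivAt_id z).sub_const e).rpow_const (p := ν) (Or.inl h0.ne')
    refine this.congr_deriv ?_
    simp
  have h2 : HasDerivAt (fun z : ℝ => z ^ β) (β * z ^ (β - 1)) z :=
    Real.hasDerivAt_rpow_const (Or.inl hz.ne')
  have h3 := h1.mul (h2.mul (p.hasDerivAt z))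
  refine h3.congr_deriv ?_
  have e1 : (z - e) ^ ν = (z - e) ^ (ν - 1) * (z - e) := by
    rw [← Real.rpow_add_one h0.ne']; congr 1; ring
  have e2 : z ^ β = z ^ (β - 1) * z := by
    rw [← Real.rpow_add_one hz.ne']; congr 1; ring
  simp only [stA, eval_add, eval_mul, eval_C, eval_X, eval_sub, Pi.mul_apply]
  rw [e1, e2]
  ring

lemma der_stB (ν e : ℝ) (p : ℝ[X]) {z : ℝ} (hze : e < z) :
    HasDerivAt (fun z => (z - e) ^ ν * p.eval z)
      ((z - e) ^ (ν - 1) * (stB ν e p).eval z) z := by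
  have h0 : 0 < z - e := by linarith
  have h1 : HasDerivAt (fun z : ℝ => (z - e) ^ ν) (ν * (z - e) ^ (ν - 1)) z := by
    have := ((hasDerivAt_id z).sub_const e).rpow_const (p := ν) (Or.inl h0.ne')
    refine this.congr_deriv ?_
    simp
  have h3 := h1.mul (p.hasDerivAt z)
  refine h3.congr_deriv ?_
  have e1 : (z - e) ^ ν = (z - e) ^ (ν - 1) * (z - e) := by
    rw [← Real.rpow_add_one h0.ne']; congr 1; ring
  simp only [stB, eval_add, eval_mul, eval_C, eval_X, eval_sub]
  rw [e1]
  ring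

/-- the key bound -/
theorem eleven (ν e b A B c₁ D : ℝ) (p r : ℝ[X]) (hp : p.natDegree ≤ 1) (hr : r.natDegree ≤ 1)
    {I : Set ℝ} (hI : ∀ x ∈ I, ∀ z, x ≤ z → z ∈ I) (hpos : ∀ x ∈ I, 0 < x)
    (hIe : ∀ x ∈ I, e < x) :
    Z I (fun z => A * z ^ (b + 1) + B * z ^ b + c₁ * z + D + (z - e) ^ ν * p.eval z +
      (z - e) ^ ν * (z ^ b * r.eval z)) 11 ∨
    ∀ z ∈ I, A * z ^ (b + 1) + B * z ^ b + c₁ * z + D + (z - e) ^ ν * p.eval z +
      (z - e) ^ ν * (z ^ b * r.eval z) = 0 := by
  set p1 := stB ν e p with hp1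
  set r1 := stA ν e b r with hr1
  set p2 := stB (ν - 1) e p1 with hp2
  set r2 := stA (ν - 1) e (b - 1) r1 with hr2
  set p3 := stA (ν - 2) e (2 - b) p2 with hp3
  set r3 := stB (ν - 2) e r2 with hr3
  set p4 := stA (ν - 3) e (1 - b) p3 with hp4
  set r4 := stB (ν - 3) e r3 with hr4
  have dp1 : p1.natDegree ≤ 1 := deg_stB _ _ hp
  have dp2 : p2.natDegree ≤ 1 := deg_stB _ _ dp1
  have dp3 : p3.natDegree ≤ 2 := deg_stA _ _ _ dp2
  have dp4 : p4.natDegree ≤ 3 := deg_stA _ _ _ dp3
  have dr1 : r1.natDegree ≤ 2 := deg_stA _ _ _ hr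
  have dr2 : r2.natDegree ≤ 3 := deg_stA _ _ _ dr1
  have dr3 : r3.natDegree ≤ 3 := deg_stB _ _ dr2
  have dr4 : r4.natDegree ≤ 3 := deg_stB _ _ dr3
  -- last function
  have L5 : Z I (fun z => z ^ (-b) * p4.eval z + r4.eval z) 7 ∨
      ∀ z ∈ I, z ^ (-b) * p4.eval z + r4.eval z = 0 := by
    have h1 := desc hI hpos ((Finset.range 4).disjSum (Finset.range 4))
      (Sum.elim (fun i => p4.coeff i) (fun i => r4.coeff i))
      (Sum.elim (fun i => -b + (i : ℝ)) (fun i => (i : ℝ)))
    have h2 : ∀ z ∈ I, ∑ i ∈ (Finset.range 4).disjSum (Finset.range 4),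
        Sum.elim (fun i => p4.coeff i) (fun i => r4.coeff i) i *
        z ^ (Sum.elim (fun i : ℕ => -b + (i : ℝ)) (fun i : ℕ => (i : ℝ)) i) =
        z ^ (-b) * p4.eval z + r4.eval z := by
      intro z hz
      rw [Finset.sum_disjSum, eval_eq_sum_range' (n := 4) (by omega),
        eval_eq_sum_range' (n := 4) (by omega), Finset.mul_sum]
      congr 1
      · apply Finset.sum_congr rfl
        intro i _
        simp only [Sum.elim_inl]
        rw [Real.rpow_add (hpos z hz), Real.rpow_natCast]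
        ring
      · apply Finset.sum_congr rfl
        intro i _
        simp only [Sum.elim_inr]
        rw [Real.rpow_natCast]
    have h3 : ((Finset.range 4).disjSum (Finset.range 4)).card - 1 = 7 := by
      rw [Finset.card_disjSum]; simp
    rw [h3] at h1
    rcases h1 with h1 | h1
    · left
      intro s hs
      exact h1 s fun x hx => ⟨(hs x hx).1, by
        have := h2 x (hs x hx).1
        simp only at this ⊢
        rw [this]; exact (hs x hx).2⟩
    · right
      intro z hz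
      rw [← h2 z hz]; exact h1 z hz
  have L4 : Z I (fun z => (z - e) ^ (ν - 4) * (z ^ (-b) * p4.eval z) +
      (z - e) ^ (ν - 4) * r4.eval z) 7 ∨
      ∀ z ∈ I, (z - e) ^ (ν - 4) * (z ^ (-b) * p4.eval z) +
      (z - e) ^ (ν - 4) * r4.eval z = 0 := by
    rcases L5 with h1 | h1
    · left
      intro s hs
      refine h1 s fun x hx => ⟨(hs x hx).1, ?_⟩
      have h2 := (hs x hx).2
      have h3 : 0 < (x - e) ^ (ν - 4) :=
        Real.rpow_pos_of_pos (by have := hIe x (hs x hx).1; linarith) _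
      simp only [← mul_add] at h2
      rcases mul_eq_zero.1 h2 with h4 | h4
      · exact absurd h4 h3.ne'
      · exact h4
    · right
      intro z hz
      rw [← mul_add, h1 z hz, mul_zero]
  have L3 : Z I (fun z => A * (b + 1) * b + (z - e) ^ (ν - 3) * (z ^ (1 - b) * p3.eval z) +
      (z - e) ^ (ν - 3) * r3.eval z) 8 ∨
      ∀ z ∈ I, A * (b + 1) * b + (z - e) ^ (ν - 3) * (z ^ (1 - b) * p3.eval z) +
      (z - e) ^ (ν - 3) * r3.eval z = 0 := by
    refine step1 hI (m := fun _ => 1) (g := fun z => A * (b + 1) * b +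
      (z - e) ^ (ν - 3) * (z ^ (1 - b) * p3.eval z) + (z - e) ^ (ν - 3) * r3.eval z)
      (fun x _ => (one_mul _).symm) (fun _ _ => one_ne_zero) (fun z hz => ?_) L4
    have h1 := der_stA (ν - 3) e (1 - b) p3 (hpos z hz) (hIe z hz)
    have h2 := der_stB (ν - 3) e r3 (hIe z hz)
    refine ((h1.const_add (A * (b + 1) * b)).add h2).congr_deriv ?_
    rw [← hp4, ← hr4, show ν - 3 - 1 = ν - 4 by ring, show 1 - b - 1 = -b by ring]
  have L2 : Z I (fun z => A * (b + 1) * b * z ^ (b - 1) + B * b * (b - 1) * z ^ (b - 2) +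
      (z - e) ^ (ν - 2) * p2.eval z + (z - e) ^ (ν - 2) * (z ^ (b - 2) * r2.eval z)) 9 ∨
      ∀ z ∈ I, A * (b + 1) * b * z ^ (b - 1) + B * b * (b - 1) * z ^ (b - 2) +
      (z - e) ^ (ν - 2) * p2.eval z + (z - e) ^ (ν - 2) * (z ^ (b - 2) * r2.eval z) = 0 := by
    refine step1 hI (m := fun z => z ^ (b - 2)) (g := fun z => A * (b + 1) * b * z +
      B * b * (b - 1) + (z - e) ^ (ν - 2) * (z ^ (2 - b) * p2.eval z) +
      (z - e) ^ (ν - 2) * r2.eval z) (fun z hz => ?_)
      (fun z hz => (Real.rpow_pos_of_pos (hpos z hz) _).ne') (fun z hz => ?_) L3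
    · have e1 : z ^ (b - 1) = z ^ (b - 2) * z := by
        rw [← Real.rpow_add_one (hpos z hz).ne']; congr 1; ring
      have e2 : z ^ (b - 2) * z ^ (2 - b) = 1 := by
        rw [← Real.rpow_add (hpos z hz)]; simp
      rw [e1]
      linear_combination (-(z - e) ^ (ν - 2) * p2.eval z) * e2
    · have h1 := der_stA (ν - 2) e (2 - b) p2 (hpos z hz) (hIe z hz)
      have h2 := der_stB (ν - 2) e r2 (hIe z hz)
      have h3 := ((hasDerivAt_id z).const_mul (A * (b + 1) * b)).add_const (B * b * (b - 1))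
      refine ((h3.add h1).add h2).congr_deriv ?_
      rw [← hp3, ← hr3, show ν - 2 - 1 = ν - 3 by ring, show 2 - b - 1 = 1 - b by ring]
      simp
  have L1 : Z I (fun z => A * (b + 1) * z ^ b + B * b * z ^ (b - 1) + c₁ +
      (z - e) ^ (ν - 1) * p1.eval z + (z - e) ^ (ν - 1) * (z ^ (b - 1) * r1.eval z)) 10 ∨
      ∀ z ∈ I, A * (b + 1) * z ^ b + B * b * z ^ (b - 1) + c₁ +
      (z - e) ^ (ν - 1) * p1.eval z + (z - e) ^ (ν - 1) * (z ^ (b - 1) * r1.eval z) = 0 := by
    refine step1 hI (m := fun _ => 1) (g := fun z => A * (b + 1) * z ^ b + B * b * z ^ (b - 1) +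
      c₁ + (z - e) ^ (ν - 1) * p1.eval z + (z - e) ^ (ν - 1) * (z ^ (b - 1) * r1.eval z))
      (fun x _ => (one_mul _).symm) (fun _ _ => one_ne_zero) (fun z hz => ?_) L2
    have h1 := der_stB (ν - 1) e p1 (hIe z hz)
    have h2 := der_stA (ν - 1) e (b - 1) r1 (hpos z hz) (hIe z hz)
    have h3 := (Real.hasDerivAt_rpow_const (x := z) (p := b)
      (Or.inl (hpos z hz).ne')).const_mul (A * (b + 1))
    have h4 := (Real.hasDerivAt_rpow_const (x := z) (p := b - 1)
      (Or.inl (hpos z hz).ne')).const_mul (B * b)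
    refine ((((h3.add h4).add_const c₁).add h1).add h2).congr_deriv ?_
    rw [← hp2, ← hr2, show ν - 1 - 1 = ν - 2 by ring, show b - 1 - 1 = b - 2 by ring]
    ring
  refine step1 hI (m := fun _ => 1) (g := fun z => A * z ^ (b + 1) + B * z ^ b + c₁ * z + D +
      (z - e) ^ ν * p.eval z + (z - e) ^ ν * (z ^ b * r.eval z))
      (fun x _ => (one_mul _).symm) (fun _ _ => one_ne_zero) (fun z hz => ?_) L1
  have h1 := der_stB ν e p (hIe z hz)
  have h2 := der_stA ν e b r (hpos z hz) (hIe z hz)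
  have h3 := (Real.hasDerivAt_rpow_const (x := z) (p := b + 1)
    (Or.inl (hpos z hz).ne')).const_mul A
  have h4 := (Real.hasDerivAt_rpow_const (x := z) (p := b)
    (Or.inl (hpos z hz).ne')).const_mul B
  have h5 := (hasDerivAt_id z).const_mul c₁
  refine (((((h3.add h4).add h5).add_const D).add h1).add h2).congr_deriv ?_
  rw [← hp1, ← hr1, show b + 1 - 1 = b by ring]
  simp only [mul_one]
  ring

end Pool.H89.PW
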