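import Mathlib
import Pool.Agent.H89.PW.Main
import Pool.Agent.H89.PW.Asym

/-!
# Words of `n` letters with at least `n + 1` fixed points
-/

namespace Pool.H89.PW

open Set Real Filter Topology

lemma orb_congr {l c e l' c' e' : ℕ → ℝ} (x : ℝ) (k : ℕ)
    (h : ∀ i < k, l' i = l i ∧ c' i = c i ∧ e' i = e i) :
    orb l' c' e' x k = orb l c e x k := by
  induction k with
  | zero => rfl
  | succ k ih =>
    obtain ⟨h1, h2, h3⟩ := h k (by omega)
    simp only [orb, h1, h2, h3, ih fun i hi => h i (by omega)]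

/-- the new letter is close to the identity -/
lemma letter_tendsto (lam v : ℝ) (hlam : 0 < lam) :
    Tendsto (fun A : ℝ => A / lam * ((1 + v / A) ^ lam - 1)) atTop (𝓝 v) := by
  have h1 : HasDerivAt (fun h : ℝ => (1 + v * h) ^ lam) (lam * v) 0 := by
    have h2 : HasDerivAt (fun h : ℝ => 1 + v * h) v 0 := by
      simpa using ((hasDerivAt_id (0 : ℝ)).const_mul v).const_add 1
    have h3 := h2.rpow_const (p := lam) (Or.inl (by norm_num))
    refine h3.congr_deriv ?_
    simp; ring
  have h2 := hasDerivAt_iff_tendsto_slope_zero.1 h1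
  have h3 : Tendsto (fun A : ℝ => A⁻¹) atTop (𝓝[≠] 0) :=
    tendsto_inv_atTop_nhdsGT_zero.mono_right (nhdsWithin_mono _ (fun x hx => (ne_of_gt hx)))
  have h4 := (h2.comp h3).const_mul (1 / lam)
  have h5 : 1 / lam * (lam * v) = v := by field_simp
  rw [h5] at h4
  refine h4.congr fun A => ?_
  simp only [Function.comp, inv_inv, zero_add, mul_zero, add_zero, one_rpow, smul_eq_mul,
    div_eq_mul_inv]
  ring

/-- `N` sign changes for a word of `n` letters -/
def P (n N : ℕ) : Prop := ∃ (l c e a : ℕ → ℝ), (∀ i, 0 < l i) ∧ (∀ i, 0 < c i) ∧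
  (∀ i ≤ N, a i ∈ dom l c e n) ∧ (∀ i < N, a i < a (i + 1)) ∧
  (∀ i < N, (orb l c e (a i) n - a i) * (orb l c e (a (i + 1)) n - a (i + 1)) < 0)

lemma P_one : P 1 2 := by
  refine ⟨fun _ => 2, fun _ => 1 / 3, fun _ => 2 / 3,
    fun i => if i = 0 then 1 / 2 else if i = 1 then 3 / 2 else 3, ?_, ?_, ?_, ?_, ?_⟩
  · intro i; norm_num
  · intro i; norm_num
  · intro i hi j hj
    interval_cases j
    simp only [orb]
    split_ifs <;> norm_num
  · intro i hi
    interval_cases i <;> norm_num
  · intro i hi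
    have h2 : ∀ x : ℝ, x ^ (2 : ℝ) = x ^ 2 := fun x => by
      rw [show (2 : ℝ) = ((2 : ℕ) : ℝ) by norm_num, Real.rpow_natCast]
    interval_cases i
    · simp only [orb, h2]; norm_num
    · simp only [orb, h2]; norm_num

lemma P_succ {n N : ℕ} (hn : 1 ≤ n) (hN : 1 ≤ N) (h : P n N) : P (n + 1) (N + 1) := by
  obtain ⟨l, c, e, a, hl, hc, hdom, hmono, hsign⟩ := h
  set L : ℝ := ∏ i ∈ Finset.range n, l i with hL
  have hL0 : 0 < L := Finset.prod_pos fun i _ => hl i
  have hF : orb l c e (a N) n - a N ≠ 0 := by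
    intro h0
    have := hsign (N - 1) (by omega)
    rw [show N - 1 + 1 = N by omega, h0, mul_zero] at this
    exact lt_irrefl _ this
  obtain ⟨lam, hlam, hlam'⟩ : ∃ lam : ℝ, 0 < lam ∧
      ((0 < orb l c e (a N) n - a N ∧ L * lam < 1) ∨
       (orb l c e (a N) n - a N < 0 ∧ 1 < L * lam)) := by
    rcases lt_or_gt_of_ne hF with h0 | h0
    · refine ⟨2 / L, by positivity, Or.inr ⟨h0, ?_⟩⟩
      rw [mul_div_cancel₀ _ hL0.ne']; norm_num
    · refine ⟨1 / (2 * L), by positivity, Or.inl ⟨h0, ?_⟩⟩
      have : L * (1 / (2 * L)) = 1 / 2 := by field_simp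
      rw [this]; norm_num
  -- the modified value
  let g : ℝ → ℝ → ℝ := fun A v => A / lam * ((1 + v / A) ^ lam - 1)
  have hg : ∀ v, Tendsto (fun A => g A v) atTop (𝓝 v) := fun v => letter_tendsto lam v hlam
  have ev1 : ∀ᶠ A in atTop, ∀ i ∈ Finset.range N,
      (g A (orb l c e (a i) n) - a i) * (g A (orb l c e (a (i + 1)) n) - a (i + 1)) < 0 := by
    rw [Filter.eventually_all_finset]
    intro i hi
    have hi' : i < N := Finset.mem_range.1 hi
    have h1 := ((hg (orb l c e (a i) n)).sub_const (a i)).mul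
      ((hg (orb l c e (a (i + 1)) n)).sub_const (a (i + 1)))
    exact h1.eventually (gt_mem_nhds (hsign i hi'))
  have ev2 : ∀ᶠ A in atTop, ∀ i ∈ Finset.range (N + 1), 0 < orb l c e (a i) n + A := by
    rw [Filter.eventually_all_finset]
    intro i _
    filter_upwards [eventually_gt_atTop (-orb l c e (a i) n)] with A hA
    linarith
  have ev3 : ∀ᶠ A in atTop, 0 < (g A (orb l c e (a N) n) - a N) *
      (orb l c e (a N) n - a N) := by
    have h1 := ((hg (orb l c e (a N) n)).sub_const (a N)).mul_const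
      (orb l c e (a N) n - a N)
    exact h1.eventually (lt_mem_nhds (mul_self_pos.2 hF))
  obtain ⟨A, hA1, hA2, hA3, hA0⟩ :=
    (ev1.and (ev2.and (ev3.and (eventually_gt_atTop 0)))).exists
  -- the new word
  let l' : ℕ → ℝ := fun i => if i < n then l i else lam
  let c' : ℕ → ℝ := fun i => if i < n then c i else A ^ (1 - lam) / lam
  let e' : ℕ → ℝ := fun i => if i + 1 < n then e i else if i < n then e i + A else -(A / lam)
  have hl' : ∀ i, 0 < l' i := by
    intro i; simp only [l']; split_ifs
    · exact hl i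
    · exact hlam
  have hc' : ∀ i, 0 < c' i := by
    intro i; simp only [c']; split_ifs
    · exact hc i
    · exact div_pos (Real.rpow_pos_of_pos hA0 _) hlam
  have horb : ∀ x k, k < n → orb l' c' e' x k = orb l c e x k := by
    intro x k hk
    apply orb_congr
    intro i hi
    have h1 : i < n := by omega
    have h2 : i + 1 < n := by omega
    simp only [l', c', e', h1, h2, if_true, and_self]
  have horbn : ∀ x, orb l' c' e' x n = orb l c e x n + A := by
    intro x
    obtain ⟨k, rfl⟩ : ∃ k, n = k + 1 := ⟨n - 1, by omega⟩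
    have h1 := horb x k (by omega)
    simp only [orb, h1]
    simp only [l', c', e', lt_add_iff_pos_right, zero_lt_one, if_true, lt_irrefl, if_false]
    ring
  have horbs : ∀ x, 0 < orb l c e x n + A → orb l' c' e' x (n + 1) = g A (orb l c e x n) := by
    intro x hx
    have h1 : orb l' c' e' x (n + 1) =
        c' n * (orb l' c' e' x n) ^ (l' n) + e' n := rfl
    have h2 : orb l c e x n + A = A * (1 + orb l c e x n / A) := by
      field_simp; ring
    have h3 : 0 ≤ 1 + orb l c e x n / A := by
      have : 0 < A * (1 + orb l c e x n / A) := h2 ▸ hx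
      exact (pos_of_mul_pos_right this hA0.le).le
    rw [h1, horbn, h2, Real.mul_rpow hA0.le]
    · have h4 : l' n = lam := by simp [l']
      have h5 : c' n = A ^ (1 - lam) / lam := by simp [c']
      have h6 : e' n = -(A / lam) := by simp [e']
      rw [h4, h5, h6]
      have h7 : A ^ (1 - lam) * A ^ lam = A := by
        rw [← Real.rpow_add hA0]; simp
      simp only [g]
      calc A ^ (1 - lam) / lam * (A ^ lam * (1 + orb l c e x n / A) ^ lam) + -(A / lam)
          = (A ^ (1 - lam) * A ^ lam) / lam * (1 + orb l c e x n / A) ^ lam - A / lam := by ring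
        _ = _ := by rw [h7]; ring
    · exact h3
  have hprod : ∏ i ∈ Finset.range (n + 1), l' i = L * lam := by
    rw [Finset.prod_range_succ]
    congr 1
    · apply Finset.prod_congr rfl
      intro i hi
      simp only [l', Finset.mem_range.1 hi, if_true]
    · simp [l']
  -- the new point
  have ev4 : ∀ᶠ x in atTop, (g A (orb l c e (a N) n) - a N) *
      (orb l' c' e' x (n + 1) - x) < 0 := by
    rcases hlam' with ⟨h0, h1⟩ | ⟨h0, h1⟩
    · have h2 := ev_lt l' c' e' (n + 1) (fun i _ => hl' i) (fun i _ => hc' i)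
        (by rw [hprod]; exact h1)
      have h3 : 0 < g A (orb l c e (a N) n) - a N :=
        pos_of_mul_pos_left hA3 h0.le
      filter_upwards [h2] with x hx
      exact mul_neg_of_pos_of_neg h3 (by linarith)
    · have h2 := ev_gt l' c' e' (n + 1) (fun i _ => hl' i) (fun i _ => hc' i)
        (by rw [hprod]; exact h1)
      have h3 : g A (orb l c e (a N) n) - a N < 0 := by
        by_contra hcon
        push Not at hcon
        have := mul_nonpos_of_nonneg_of_nonpos hcon h0.le
        linarith
      filter_upwards [h2] with x hx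
      exact mul_neg_of_neg_of_pos h3 (by linarith)
  obtain ⟨b, hb1, hb2, hb3⟩ := (ev4.and ((ev_dom l' c' e' (n + 1) (fun i _ => hl' i)
    (fun i _ => hc' i)).and (eventually_gt_atTop (a N)))).exists
  refine ⟨l', c', e', fun i => if i ≤ N then a i else b, hl', hc', ?_, ?_, ?_⟩
  · intro i hi
    by_cases h1 : i ≤ N
    · simp only [h1, if_true]
      intro k hk
      rcases lt_or_eq_of_le (Nat.lt_succ_iff.1 hk) with h2 | rfl
      · rw [horb _ _ h2]; exact hdom i h1 k h2
      · rw [horbn]; exact hA2 i (Finset.mem_range.2 (by omega))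
    · simp only [h1, if_false]; exact hb2
  · intro i hi
    by_cases h1 : i + 1 ≤ N
    · have h2 : i ≤ N := by omega
      simp only [h1, h2, if_true]
      exact hmono i (by omega)
    · have h3 : i = N := by omega
      subst h3
      simp only [le_refl, if_true, h1, if_false]
      exact hb3
  · intro i hi
    by_cases h1 : i + 1 ≤ N
    · have h2 : i ≤ N := by omega
      simp only [h1, h2, if_true]
      rw [horbs _ (hA2 i (Finset.mem_range.2 (by omega))),
        horbs _ (hA2 (i + 1) (Finset.mem_range.2 (by omega)))]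
      exact hA1 i (Finset.mem_range.2 (by omega))
    · have h3 : i = N := by omega
      subst h3
      simp only [le_refl, if_true, h1, if_false]
      rw [horbs _ (hA2 i (Finset.mem_range.2 (by omega)))]
      exact hb1

/-- sign changes give fixed points -/
theorem many {l c e : ℕ → ℝ} {n : ℕ} (hl : ∀ i < n, 0 < l i) (hc : ∀ i < n, 0 < c i)
    (N : ℕ) (a : ℕ → ℝ) (hdom : ∀ i ≤ N, a i ∈ dom l c e n) (hmono : ∀ i < N, a i < a (i + 1))
    (hsign : ∀ i < N,
      (orb l c e (a i) n - a i) * (orb l c e (a (i + 1)) n - a (i + 1)) < 0) :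
    (N : ℕ∞) ≤ (fixedPts l c e n).encard := by
  have zero : ∀ i : Fin N, ∃ t ∈ Ioo (a i) (a (i + 1)), t ∈ fixedPts l c e n := by
    intro i
    have hi : (i : ℕ) < N := i.2
    have hm := hmono i hi
    have hd : ∀ t ∈ Icc (a i) (a (i + 1)), t ∈ dom l c e n := fun t ht =>
      dom_up hl hc (hdom i (by omega)) ht.1
    have hcont : ContinuousOn (fun t => orb l c e t n - t) (Icc (a i) (a (i + 1))) := by
      intro t ht
      exact ((hasDeriv (hd t ht) n le_rfl).continuousAt.sub continuousAt_id).continuousWithinAt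
    rcases mul_neg_iff.1 (hsign i hi) with ⟨h1, h2⟩ | ⟨h1, h2⟩
    · obtain ⟨t, ht, ht'⟩ := intermediate_value_Ioo' hm.le hcont (show (0 : ℝ) ∈ Ioo _ _ from
        ⟨h2, h1⟩)
      exact ⟨t, ht, hd t (Ioo_subset_Icc_self ht), by simp only at ht'; linarith⟩
    · obtain ⟨t, ht, ht'⟩ := intermediate_value_Ioo hm.le hcont (show (0 : ℝ) ∈ Ioo _ _ from
        ⟨h1, h2⟩)
      exact ⟨t, ht, hd t (Ioo_subset_Icc_self ht), by simp only at ht'; linarith⟩
  choose t ht ht' using zero
  have amono : ∀ i j : ℕ, i ≤ j → j ≤ N → a i ≤ a j := by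
    intro i j hij
    induction j, hij using Nat.le_induction with
    | base => intro _; exact le_rfl
    | succ j _ ih => intro hj; exact (ih (by omega)).trans (hmono j (by omega)).le
  have tmono : StrictMono t := by
    intro i j hij
    have h1 := (ht i).2
    have h2 := (ht j).1
    have h3 := amono (i + 1) j (by have : (i : ℕ) < j := hij; omega) (by omega)
    linarith
  have h5 : (Set.range t) ⊆ fixedPts l c e n := by
    rintro _ ⟨i, rfl⟩; exact ht' i
  calc (N : ℕ∞) = (Set.range t).encard := by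
        rw [← Set.image_univ, tmono.injective.encard_image, Set.encard_univ]
        simp
    _ ≤ _ := Set.encard_le_encard h5

theorem of_P {n N : ℕ} (hN : 1 ≤ N) (h : P n N) :
    ∃ l c e : ℕ → ℝ, (∀ i, 0 < l i) ∧ (∀ i, 0 < c i) ∧
    (∃ x ∈ dom l c e n, orb l c e x n ≠ x) ∧ (N : ℕ∞) ≤ (fixedPts l c e n).encard := by
  obtain ⟨l, c, e, a, hl, hc, hdom, hmono, hsign⟩ := h
  refine ⟨l, c, e, hl, hc, ⟨a 0, hdom 0 (by omega), fun h => ?_⟩,
    many (fun i _ => hl i) (fun i _ => hc i) N a hdom hmono hsign⟩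
  have := hsign 0 (by omega)
  rw [h, sub_self, zero_mul] at this
  exact lt_irrefl _ this

end Pool.H89.PW
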