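import Mathlib
import Pool.Agent.H89.PW.Lower
import Pool.Agent.H32.PW.Three

/-!
# A word of three letters with exactly five fixed points
-/

namespace Pool.H89.PW

open Set Real Filter Topology

/-- the evaluation points: `x = (s^2 - 1)^2` -/
noncomputable def sv : ℕ → ℝ
  | 0 => 21 / 20
  | 1 => 5 / 4
  | 2 => 3 / 2
  | 3 => 7 / 4
  | 4 => 2
  | _ => 3

lemma rpow_nine_half {s : ℝ} (hs : 0 ≤ s) : (s ^ 2) ^ ((9 : ℝ) / 2) = s ^ 9 := by
  rw [← Real.rpow_natCast s 2, ← Real.rpow_mul hs, ← Real.rpow_natCast s 9]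
  norm_num

/-- the word `x ↦ x^(1/2) + 1`, `x ↦ (9/40) x^(9/2) + 261/80`, `x ↦ x^(1/2) - 19/10` -/
theorem P_three : P 3 5 := by
  refine ⟨fun i => if i = 1 then 9 / 2 else 1 / 2, fun i => if i = 1 then 9 / 40 else 1,
    fun i => if i = 0 then 1 else if i = 1 then 261 / 80 else -(19 / 10),
    fun i => (sv i ^ 2 - 1) ^ 2, ?_, ?_, ?_, ?_, ?_⟩
  · intro i; dsimp only; split_ifs <;> norm_num
  · intro i; dsimp only; split_ifs <;> norm_num
  all_goals
    set l : ℕ → ℝ := fun i => if i = 1 then 9 / 2 else 1 / 2 with hl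
    set c : ℕ → ℝ := fun i => if i = 1 then 9 / 40 else 1 with hc
    set e : ℕ → ℝ := fun i => if i = 0 then 1 else if i = 1 then 261 / 80 else -(19 / 10) with he
    have hlp : ∀ i, 0 < l i := by intro i; simp only [hl]; split_ifs <;> norm_num
    have hcp : ∀ i, 0 < c i := by intro i; simp only [hc]; split_ifs <;> norm_num
    have o1 : ∀ s : ℝ, 1 < s → orb l c e ((s ^ 2 - 1) ^ 2) 1 = s ^ 2 := by
      intro s hs
      have h0 : (0 : ℝ) ≤ s ^ 2 - 1 := by nlinarith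
      have h1 : orb l c e ((s ^ 2 - 1) ^ 2) 1 = 1 * ((s ^ 2 - 1) ^ 2) ^ ((1 : ℝ) / 2) + 1 := by
        simp [orb, hl, hc, he]
      rw [h1, ← Real.sqrt_eq_rpow, Real.sqrt_sq h0]; ring
    have o2 : ∀ s : ℝ, 1 < s → orb l c e ((s ^ 2 - 1) ^ 2) 2 = 9 / 40 * s ^ 9 + 261 / 80 := by
      intro s hs
      have h1 : orb l c e ((s ^ 2 - 1) ^ 2) 2 =
          9 / 40 * (orb l c e ((s ^ 2 - 1) ^ 2) 1) ^ ((9 : ℝ) / 2) + 261 / 80 := by
        conv_lhs => rw [orb]
        simp [hl, hc, he]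
      rw [h1, o1 s hs, rpow_nine_half (by linarith)]
    have o3 : ∀ s : ℝ, 1 < s → orb l c e ((s ^ 2 - 1) ^ 2) 3 =
        √(9 / 40 * s ^ 9 + 261 / 80) - 19 / 10 := by
      intro s hs
      have h1 : orb l c e ((s ^ 2 - 1) ^ 2) 3 =
          1 * (orb l c e ((s ^ 2 - 1) ^ 2) 2) ^ ((1 : ℝ) / 2) + -(19 / 10) := by
        conv_lhs => rw [orb]
        simp [hl, hc, he]
      rw [h1, o2 s hs, ← Real.sqrt_eq_rpow]; ring
    have hneg : ∀ s : ℝ, 1 < s → 9 / 40 * s ^ 9 + 261 / 80 < ((s ^ 2 - 1) ^ 2 + 19 / 10) ^ 2 →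
        orb l c e ((s ^ 2 - 1) ^ 2) 3 - (s ^ 2 - 1) ^ 2 < 0 := by
      intro s hs h
      rw [o3 s hs]
      have h2 : √(9 / 40 * s ^ 9 + 261 / 80) < (s ^ 2 - 1) ^ 2 + 19 / 10 :=
        (Real.sqrt_lt' (by positivity)).2 h
      linarith
    have hpos : ∀ s : ℝ, 1 < s → ((s ^ 2 - 1) ^ 2 + 19 / 10) ^ 2 < 9 / 40 * s ^ 9 + 261 / 80 →
        0 < orb l c e ((s ^ 2 - 1) ^ 2) 3 - (s ^ 2 - 1) ^ 2 := by
      intro s hs h
      rw [o3 s hs]
      have h2 : (s ^ 2 - 1) ^ 2 + 19 / 10 < √(9 / 40 * s ^ 9 + 261 / 80) :=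
        Real.lt_sqrt_of_sq_lt h
      linarith
    have hsv : ∀ i, 1 < sv i := by
      intro i
      match i with
      | 0 => norm_num [sv]
      | 1 => norm_num [sv]
      | 2 => norm_num [sv]
      | 3 => norm_num [sv]
      | 4 => norm_num [sv]
      | (n + 5) => show (1 : ℝ) < 3; norm_num
  · intro i _ k hk
    have h1 := hsv i
    have h2 : (0 : ℝ) < sv i ^ 2 - 1 := by nlinarith
    interval_cases k
    · simp only [orb]; positivity
    · simp only [o1 _ h1]; positivity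
    · simp only [o2 _ h1]; positivity
  · intro i hi
    interval_cases i <;> norm_num [sv]
  · intro i hi
    have n0 := hneg (sv 0) (hsv 0) (by norm_num [sv])
    have p1 := hpos (sv 1) (hsv 1) (by norm_num [sv])
    have n2 := hneg (sv 2) (hsv 2) (by norm_num [sv])
    have p3 := hpos (sv 3) (hsv 3) (by norm_num [sv])
    have n4 := hneg (sv 4) (hsv 4) (by norm_num [sv])
    have p5 := hpos (sv 5) (hsv 5) (by norm_num [sv])
    interval_cases i
    · exact mul_neg_of_neg_of_pos n0 p1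
    · exact mul_neg_of_pos_of_neg p1 n2
    · exact mul_neg_of_neg_of_pos n2 p3
    · exact mul_neg_of_pos_of_neg p3 n4
    · exact mul_neg_of_neg_of_pos n4 p5

/-- a word of three letters with exactly five fixed points -/
theorem example_three : ∃ l c e : ℕ → ℝ, (∀ i, 0 < l i) ∧ (∀ i, 0 < c i) ∧
    (fixedPts l c e 3).encard = 5 := by
  obtain ⟨l, c, e, hl, hc, ⟨x, hx, hx'⟩, h5⟩ := of_P (by norm_num) P_three
  refine ⟨l, c, e, hl, hc, le_antisymm ?_ (by exact_mod_cast h5)⟩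
  rcases three_letters l c e (fun i _ => hl i) (fun i _ => hc i) with h | h
  · exact absurd (h x hx) hx'
  · exact h

lemma P_all {n : ℕ} (hn : 3 ≤ n) : P n (n + 2) := by
  induction n, hn using Nat.le_induction with
  | base => exact P_three
  | succ n hn ih => exact P_succ (by omega) (by omega) ih

/-- For every `n ≥ 3` some word of `n` letters is not the identity and has at least `n + 2` fixed
points. -/
theorem lower (n : ℕ) (hn : 3 ≤ n) : ∃ l c e : ℕ → ℝ, (∀ i, 0 < l i) ∧ (∀ i, 0 < c i) ∧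
    (∃ x ∈ dom l c e n, orb l c e x n ≠ x) ∧ ((n + 2 : ℕ) : ℕ∞) ≤ (fixedPts l c e n).encard :=
  of_P (by omega) (P_all hn)

end Pool.H89.PW
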