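import Mathlib
import Pool.Agent.H89.PW.Main
import Pool.Agent.H89.PW.Desc
import Pool.Agent.H32.PW.Three

/-!
# Words of four letters: at most thirteen fixed points
-/

namespace Pool.H89.PW

open Set Real Polynomial Pool.H32.PC

/-- the function of `z = x_2` -/
lemma s_four {l c e : ℕ → ℝ} (hl : ∀ i < 4, 0 < l i) (hc : ∀ i < 4, 0 < c i) {x : ℝ}
    (hx : x ∈ dom l c e 4) :
    s l c e x 4 * (x * orb l c e x 1 * orb l c e x 2 * orb l c e x 3) =
      orb l c e x 1 * ((l 0 - 1) * (orb l c e x 2 * orb l c e x 3)) +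
      (orb l c e x 1 - e 0) * ((l 1 - 1) * l 0 * (orb l c e x 2 * orb l c e x 3) +
        (l 2 - 1) * l 0 * l 1 * ((orb l c e x 2 - e 1) * orb l c e x 3) +
        (l 3 - 1) * l 0 * l 1 * l 2 * ((orb l c e x 2 - e 1) * (orb l c e x 3 - e 2))) := by
  have h0 : 0 < x := hx 0 (by norm_num)
  have h1 : 0 < orb l c e x 1 := hx 1 (by norm_num)
  have h2 : 0 < orb l c e x 2 := hx 2 (by norm_num)
  have h3 : 0 < orb l c e x 3 := hx 3 (by norm_num)
  set y := orb l c e x 1 with hy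
  set z := orb l c e x 2 with hz
  set w := orb l c e x 3 with hw
  have o1 : y - e 0 = c 0 * x ^ (l 0) := by simp [hy, orb]
  have o2 : z - e 1 = c 1 * y ^ (l 1) := by
    have : z = c 1 * y ^ (l 1) + e 1 := rfl
    rw [this]; ring
  have o3 : w - e 2 = c 2 * z ^ (l 2) := by
    have : w = c 2 * z ^ (l 2) + e 2 := rfl
    rw [this]; ring
  have d1 : dorb l c e x 1 * x = l 0 * (y - e 0) := by
    have : dorb l c e x 1 = c 0 * l 0 * x ^ (l 0 - 1) * 1 := rfl
    rw [this, o1]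
    have e1 : x ^ (l 0 - 1) * x = x ^ (l 0) := by
      rw [← Real.rpow_add_one h0.ne']; congr 1; ring
    linear_combination (c 0 * l 0) * e1
  have d2 : dorb l c e x 2 * y = l 1 * (z - e 1) * dorb l c e x 1 := by
    have : dorb l c e x 2 = c 1 * l 1 * y ^ (l 1 - 1) * dorb l c e x 1 := rfl
    rw [this, o2]
    have e1 : y ^ (l 1 - 1) * y = y ^ (l 1) := by
      rw [← Real.rpow_add_one h1.ne']; congr 1; ring
    linear_combination (c 1 * l 1 * dorb l c e x 1) * e1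
  have d3 : dorb l c e x 3 * z = l 2 * (w - e 2) * dorb l c e x 2 := by
    have : dorb l c e x 3 = c 2 * l 2 * z ^ (l 2 - 1) * dorb l c e x 2 := rfl
    rw [this, o3]
    have e1 : z ^ (l 2 - 1) * z = z ^ (l 2) := by
      rw [← Real.rpow_add_one h2.ne']; congr 1; ring
    linear_combination (c 2 * l 2 * dorb l c e x 2) * e1
  have hs : s l c e x 4 = (l 0 - 1) * (1 / x) + (l 1 - 1) * (dorb l c e x 1 / y) +
      (l 2 - 1) * (dorb l c e x 2 / z) + (l 3 - 1) * (dorb l c e x 3 / w) := by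
    simp only [s, Finset.sum_range_succ, Finset.sum_range_zero, el, zero_add]
    rfl
  have hs2 : s l c e x 4 * (x * y * z * w) = (l 0 - 1) * (y * z * w) +
      (l 1 - 1) * (dorb l c e x 1 * x) * (z * w) +
      (l 2 - 1) * (dorb l c e x 2 * y) * x * w + (l 3 - 1) * (dorb l c e x 3 * z) * x * y := by
    rw [hs]; field_simp
  rw [hs2, d2, d3]
  linear_combination ((l 1 - 1) * (z * w) + (l 2 - 1) * l 1 * (z - e 1) * w +
    (l 3 - 1) * l 2 * (w - e 2) * l 1 * (z - e 1)) * d1 +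
    (l 3 - 1) * l 2 * (w - e 2) * x * d2

/-- zeros of `s` on the domain -/
lemma s_zeros {l c e : ℕ → ℝ} (hl : ∀ i < 4, 0 < l i) (hc : ∀ i < 4, 0 < c i) :
    Z (dom l c e 4) (fun x => s l c e x 4) 11 ∨ ∀ x ∈ dom l c e 4, s l c e x 4 = 0 := by
  obtain ⟨ν, hν⟩ : ∃ ν : ℝ, ν = -(1 / l 1) := ⟨_, rfl⟩
  obtain ⟨κ, hκ⟩ : ∃ κ : ℝ, κ = -(e 0 * (c 1) ^ (-ν)) := ⟨_, rfl⟩
  obtain ⟨K0, hK0⟩ : ∃ K : ℝ, K = l 0 - 1 := ⟨_, rfl⟩
  obtain ⟨K1, hK1⟩ : ∃ K : ℝ, K = (l 1 - 1) * l 0 := ⟨_, rfl⟩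
  obtain ⟨K2, hK2⟩ : ∃ K : ℝ, K = (l 2 - 1) * l 0 * l 1 := ⟨_, rfl⟩
  obtain ⟨K3, hK3⟩ : ∃ K : ℝ, K = (l 3 - 1) * l 0 * l 1 * l 2 := ⟨_, rfl⟩
  have hI : ∀ x ∈ {z : ℝ | 0 < z ∧ e 1 < z}, ∀ z, x ≤ z → z ∈ {z : ℝ | 0 < z ∧ e 1 < z} :=
    fun x hx z hz => ⟨hx.1.trans_le hz, hx.2.trans_le hz⟩
  have key := eleven ν (e 1) (l 2) (c 2 * (K0 + K1 + K2 + K3)) (-(e 1 * c 2 * (K2 + K3)))
    (e 2 * (K0 + K1 + K2)) (-(e 1 * e 2 * K2))
    (C (κ * (e 2 * (K1 + K2))) * X + C (κ * (-(e 1 * e 2 * K2))))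
    (C (κ * (c 2 * (K1 + K2 + K3))) * X + C (κ * (-(e 1 * c 2 * (K2 + K3)))))
    natDegree_linear_le natDegree_linear_le hI (fun x hx => hx.1) (fun x hx => hx.2)
  set f0 : ℝ → ℝ := fun z => c 2 * (K0 + K1 + K2 + K3) * z ^ (l 2 + 1) +
    -(e 1 * c 2 * (K2 + K3)) * z ^ (l 2) + e 2 * (K0 + K1 + K2) * z + -(e 1 * e 2 * K2) +
    (z - e 1) ^ ν * (C (κ * (e 2 * (K1 + K2))) * X + C (κ * (-(e 1 * e 2 * K2)))).eval z +
    (z - e 1) ^ ν * (z ^ (l 2) * (C (κ * (c 2 * (K1 + K2 + K3))) * X +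
      C (κ * (-(e 1 * c 2 * (K2 + K3))))).eval z) with hf0
  have link : ∀ x ∈ dom l c e 4, orb l c e x 2 ∈ {z : ℝ | 0 < z ∧ e 1 < z} ∧
      s l c e x 4 * (x * orb l c e x 2 * orb l c e x 3) = f0 (orb l c e x 2) := by
    intro x hx
    have h0 : 0 < x := hx 0 (by norm_num)
    have h1 : 0 < orb l c e x 1 := hx 1 (by norm_num)
    have h2 : 0 < orb l c e x 2 := hx 2 (by norm_num)
    have h3 : 0 < orb l c e x 3 := hx 3 (by norm_num)
    have h4 := s_four hl hc hx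
    set y := orb l c e x 1 with hy
    set z := orb l c e x 2 with hz
    set w := orb l c e x 3 with hw
    have l1 := hl 1 (by norm_num)
    have c1 := hc 1 (by norm_num)
    have o2 : z - e 1 = c 1 * y ^ (l 1) := by
      have : z = c 1 * y ^ (l 1) + e 1 := rfl
      rw [this]; ring
    have o3 : w - e 2 = c 2 * z ^ (l 2) := by
      have : w = c 2 * z ^ (l 2) + e 2 := rfl
      rw [this]; ring
    have o3' : w = c 2 * z ^ (l 2) + e 2 := rfl
    have hpz : 0 < z - e 1 := by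
      rw [o2]; exact mul_pos c1 (Real.rpow_pos_of_pos h1 _)
    have hyinv : c 1 ^ (-ν) * (z - e 1) ^ ν = y⁻¹ := by
      rw [o2, Real.mul_rpow c1.le (Real.rpow_pos_of_pos h1 _).le, ← mul_assoc,
        ← Real.rpow_add c1, ← Real.rpow_mul h1.le]
      have e1 : l 1 * ν = -1 := by rw [hν]; field_simp
      rw [e1, Real.rpow_neg_one]
      simp
    refine ⟨⟨h2, by linarith⟩, ?_⟩
    have hzz : z ^ (l 2 + 1) = z ^ (l 2) * z := Real.rpow_add_one h2.ne' _
    have h5 : s l c e x 4 * (x * z * w) = y⁻¹ * (s l c e x 4 * (x * y * z * w)) := by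
      field_simp
    rw [h5, h4, o3, ← hK0, ← hK1, ← hK2, ← hK3]
    simp only [hf0, hzz, eval_add, eval_mul, eval_C, eval_X]
    have hyy : y⁻¹ * y = 1 := inv_mul_cancel₀ h1.ne'
    rw [o3', hκ]
    linear_combination (K0 * (z * (c 2 * z ^ (l 2) + e 2)) +
      (K1 * (z * (c 2 * z ^ (l 2) + e 2)) + K2 * ((z - e 1) * (c 2 * z ^ (l 2) + e 2)) +
      K3 * ((z - e 1) * (c 2 * z ^ (l 2))))) * hyy +
      (e 0 * (K1 * (z * (c 2 * z ^ (l 2) + e 2)) + K2 * ((z - e 1) * (c 2 * z ^ (l 2) + e 2)) +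
      K3 * ((z - e 1) * (c 2 * z ^ (l 2))))) * hyinv
  rcases key with key | key
  · left
    intro T hT
    have hinj : Set.InjOn (fun x => orb l c e x 2) (T : Set ℝ) := by
      intro x hx x' hx' hxx
      have hxd := (hT x hx).1
      have hxd' := (hT x' hx').1
      rcases lt_trichotomy x x' with h | h | h
      · have := orb_lt hl hc hxd h 2 (by norm_num)
        simp only at hxx
        linarith
      · exact h
      · have := orb_lt hl hc hxd' h 2 (by norm_num)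
        simp only at hxx
        linarith
    have h1 := key (T.image fun x => orb l c e x 2) (by
      intro z hz
      obtain ⟨x, hx, rfl⟩ := Finset.mem_image.1 hz
      obtain ⟨h2, h3⟩ := link x (hT x hx).1
      refine ⟨h2, ?_⟩
      have h4 := (hT x hx).2
      simp only at h4
      rw [h4, zero_mul] at h3
      exact h3.symm)
    rwa [Finset.card_image_of_injOn hinj] at h1
  · right
    intro x hx
    obtain ⟨h2, h3⟩ := link x hx
    have h6 : f0 (orb l c e x 2) = 0 := key _ h2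
    rw [h6] at h3
    have h0 : 0 < x := hx 0 (by norm_num)
    have h2 : 0 < orb l c e x 2 := hx 2 (by norm_num)
    have h4 : 0 < orb l c e x 3 := hx 3 (by norm_num)
    rcases mul_eq_zero.1 h3 with h | h
    · exact h
    · exact absurd h (by positivity)

/-- **Four letters**: at most thirteen fixed points, or the identity. -/
theorem four_letters (l c e : ℕ → ℝ) (hl : ∀ i < 4, 0 < l i) (hc : ∀ i < 4, 0 < c i) :
    (∀ x ∈ dom l c e 4, orb l c e x 4 = x) ∨ (fixedPts l c e 4).encard ≤ 13 := by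
  have hI : ∀ x ∈ dom l c e 4, ∀ z, x ≤ z → z ∈ dom l c e 4 :=
    fun x hx z hz => dom_up hl hc hx hz
  have g1 := step1 hI (f := fun x => G l c e x 4) (g := fun x => G l c e x 4)
    (m := fun _ => 1) (fun x _ => (one_mul _).symm) (fun _ _ => one_ne_zero)
    (fun x hx => hasDerivG hx 4 le_rfl) (s_zeros hl hc)
  have g2 : Z (dom l c e 4) (fun x => dorb l c e x 4 - 1) 12 ∨
      ∀ x ∈ dom l c e 4, dorb l c e x 4 - 1 = 0 := by
    have h1 : ∀ x ∈ dom l c e 4, dorb l c e x 4 - 1 = 0 ↔ G l c e x 4 = 0 := by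
      intro x hx
      rw [dorb_eq_exp hl hc hx 4 le_rfl, sub_eq_zero, Real.exp_eq_one_iff]
    rcases g1 with g1 | g1
    · left
      intro T hT
      exact g1 T fun x hx => ⟨(hT x hx).1, (h1 x (hT x hx).1).1 (hT x hx).2⟩
    · right
      intro x hx
      exact (h1 x hx).2 (g1 x hx)
  have g3 := step1 hI (f := fun x => orb l c e x 4 - x) (g := fun x => orb l c e x 4 - x)
    (m := fun _ => 1) (fun x _ => (one_mul _).symm) (fun _ _ => one_ne_zero)
    (fun x hx => (hasDeriv hx 4 le_rfl).sub (hasDerivAt_id x)) g2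
  rcases g3 with g3 | g3
  · right
    have : (fixedPts l c e 4).encard ≤ (13 : ℕ) := by
      apply encard_le_of_finset
      intro T hT
      refine g3 T fun x hx => ⟨(hT x hx).1, ?_⟩
      simp only [(hT x hx).2, sub_self]
    exact_mod_cast this
  · left
    intro x hx
    have := g3 x hx
    linarith

end Pool.H89.PW
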