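import Mathlib
import Pool.Agent.H89.PW.Main

/-!
# Words with at most three fixed points
-/

namespace Pool.H89.PW

open Set Real

/-- the upper bound in the class of (1) -/
theorem upper (n m : ℕ) (l c e : ℕ → ℝ) (σ₁ σ₂ η : ℝ) (hm : m < n)
    (hl : ∀ i < n, 0 < l i) (hc : ∀ i < n, 0 < c i)
    (hσ₁ : σ₁ = 1 ∨ σ₁ = -1) (hσ₂ : σ₂ = 1 ∨ σ₂ = -1) (hη : η = 1 ∨ η = -1)
    (h1 : ∀ i < m, 0 ≤ σ₁ * e i ∧ η * σ₁ * (l i - 1) ≤ 0)
    (h2 : ∀ i, m ≤ i → i + 1 < n → 0 ≤ σ₂ * e i)
    (h3 : ∀ i, m < i → i < n → 0 ≤ η * σ₂ * (l i - 1)) :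
    (∀ x ∈ dom l c e n, orb l c e x n = x) ∨ (fixedPts l c e n).encard ≤ 3 := by
  by_cases hid : ∀ x ∈ dom l c e n, orb l c e x n = x
  · exact Or.inl hid
  · right
    apply encard_le_three
    intro a ha b hb c' hc' d hd hab hbc hcd
    exact hid (four hl hc hm hη (Q_CI hl hc hm hσ₁ hσ₂ h1 h2 h3) ha hb hc' hd hab hbc hcd)

/-- two letters -/
theorem two_letters (l c e : ℕ → ℝ) (hl : ∀ i < 2, 0 < l i) (hc : ∀ i < 2, 0 < c i) :
    (∀ x ∈ dom l c e 2, orb l c e x 2 = x) ∨ (fixedPts l c e 2).encard ≤ 3 := by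
  obtain ⟨σ, hσ, hσ'⟩ : ∃ σ : ℝ, (σ = 1 ∨ σ = -1) ∧ 0 ≤ σ * e 0 := by
    rcases le_total 0 (e 0) with h | h
    · exact ⟨1, Or.inl rfl, by linarith⟩
    · exact ⟨-1, Or.inr rfl, by linarith⟩
  obtain ⟨η, hη, hη'⟩ : ∃ η : ℝ, (η = 1 ∨ η = -1) ∧ 0 ≤ η * σ * (l 1 - 1) := by
    rcases le_total 0 (σ * (l 1 - 1)) with h | h
    · exact ⟨1, Or.inl rfl, by linarith⟩
    · exact ⟨-1, Or.inr rfl, by linarith⟩
  refine upper 2 0 l c e σ σ η (by norm_num) hl hc hσ hσ hη (fun i hi => by omega) ?_ ?_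
  · intro i _ hi
    obtain rfl : i = 0 := by omega
    exact hσ'
  · intro i hi hi'
    obtain rfl : i = 1 := by omega
    exact hη'

lemma half_sq {u : ℝ} (hu : 0 ≤ u) : (u ^ 2) ^ ((1 : ℝ) / 2) = u := by
  rw [← Real.sqrt_eq_rpow, Real.sqrt_sq hu]

/-- the word `x ↦ x^(1/2) + 3`, `x ↦ (x^3 - 45)/19` -/
theorem example_two : ∃ l c e : ℕ → ℝ, (∀ i, 0 < l i) ∧ (∀ i, 0 < c i) ∧
    (fixedPts l c e 2).encard = 3 := by
  refine ⟨fun i => if i = 0 then 1 / 2 else 3, fun i => if i = 0 then 1 else 1 / 19,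
    fun i => if i = 0 then 3 else -(45 / 19), ?_, ?_, ?_⟩
  · intro i; dsimp only; split_ifs <;> norm_num
  · intro i; dsimp only; split_ifs <;> norm_num
  set l : ℕ → ℝ := fun i => if i = 0 then 1 / 2 else 3 with hl
  set c : ℕ → ℝ := fun i => if i = 0 then 1 else 1 / 19 with hc
  set e : ℕ → ℝ := fun i => if i = 0 then 3 else -(45 / 19) with he
  have key : ∀ u : ℝ, 0 < u → (1 / 19) * (u + 3) ^ 3 - 45 / 19 = u ^ 2 →
      u ^ 2 ∈ fixedPts l c e 2 := by
    intro u hu h
    have h1 : orb l c e (u ^ 2) 1 = u + 3 := by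
      simp only [orb, hl, hc, he, if_true]
      rw [half_sq hu.le]; ring
    constructor
    · intro i hi
      interval_cases i
      · simp only [orb]; positivity
      · rw [h1]; positivity
    · have h2 : orb l c e (u ^ 2) 2 = 1 / 19 * (orb l c e (u ^ 2) 1) ^ (3 : ℝ) + -(45 / 19) := by
        conv_lhs => rw [orb]
        simp [hl, hc, he]
      rw [h2, h1, show (3 : ℝ) = ((3 : ℕ) : ℝ) by norm_num, Real.rpow_natCast]
      push_cast
      linarith
  have hmem : ({1, 9, 36} : Set ℝ) ⊆ fixedPts l c e 2 := by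
    intro x hx
    simp only [mem_insert_iff, mem_singleton_iff] at hx
    rcases hx with rfl | rfl | rfl
    · have := key 1 (by norm_num) (by norm_num); norm_num at this; exact this
    · have := key 3 (by norm_num) (by norm_num); norm_num at this; exact this
    · have := key 6 (by norm_num) (by norm_num); norm_num at this; exact this
  have h3 : ({1, 9, 36} : Set ℝ).encard = 3 := by
    rw [Set.encard_insert_of_notMem (by simp), Set.encard_pair (by norm_num)]
    norm_num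
  apply le_antisymm
  · rcases two_letters l c e (fun i _ => by simp only [hl]; split_ifs <;> norm_num)
      (fun i _ => by simp only [hc]; split_ifs <;> norm_num) with h | h
    · exfalso
      have h4 : (4 : ℝ) ∈ dom l c e 2 := by
        intro i hi
        interval_cases i
        · simp only [orb]; norm_num
        · simp only [orb, hl, hc, he, if_true]; positivity
      have h5 := h 4 h4
      have h6 : orb l c e 4 1 = 5 := by
        simp only [orb, hl, hc, he, if_true]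
        rw [show (4 : ℝ) = 2 ^ 2 by norm_num, half_sq (by norm_num)]; norm_num
      have h2 : orb l c e 4 2 = 1 / 19 * (orb l c e 4 1) ^ (3 : ℝ) + -(45 / 19) := by
        conv_lhs => rw [orb]
        simp [hl, hc, he]
      rw [h2, h6, show (3 : ℝ) = ((3 : ℕ) : ℝ) by norm_num, Real.rpow_natCast] at h5
      norm_num at h5
    · exact h
  · rw [← h3]; exact Set.encard_le_encard hmem

end Pool.H89.PW
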